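import Mathlib
import Pool.Agent.H758R3.Mom5

set_option autoImplicit false

namespace Pool.Agent.Results.MP_e263ba_co.CounterexampleConic

open H758R3.Dir

/-- In a counterexample to the conjecture of Redei on tilings of `F_p^3` the factor with `p`
elements has vanishing first and second moments, and the linear functionals that are injective
on it do not lie on a conic. -/
theorem result (p : ℕ) (hp : p.Prime) (A B : Set (Fin 3 → ZMod p))
    (hA0 : (0 : Fin 3 → ZMod p) ∈ A) (hB0 : (0 : Fin 3 → ZMod p) ∈ B)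
    (htile : ∀ g : Fin 3 → ZMod p, ∃! ab : (Fin 3 → ZMod p) × (Fin 3 → ZMod p),
      ab.1 ∈ A ∧ ab.2 ∈ B ∧ ab.1 + ab.2 = g)
    (hA : AddSubgroup.closure A = ⊤) (hB : AddSubgroup.closure B = ⊤) :
    ∃ C : Finset (Fin 3 → ZMod p), ((C : Set (Fin 3 → ZMod p)) = A ∨ (C : Set (Fin 3 → ZMod p)) = B) ∧
      C.card = p ∧
      (∀ i, ∑ c ∈ C, c i = 0) ∧ (∀ i j, ∑ c ∈ C, c i * c j = 0) ∧
      ∀ Q : Matrix (Fin 3) (Fin 3) (ZMod p), Q.transpose = Q →
        (∀ ξ : Fin 3 → ZMod p,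
          Set.InjOn (fun c : Fin 3 → ZMod p => ξ ⬝ᵥ c) (C : Set (Fin 3 → ZMod p)) →
            ξ ⬝ᵥ Q.mulVec ξ = 0) → Q = 0 := by
  classical
  have hfact : Fact p.Prime := ⟨hp⟩
  obtain ⟨A', hA'⟩ : ∃ A' : Finset (Fin 3 → ZMod p), (A' : Set _) = A :=
    ⟨(Set.toFinite A).toFinset, (Set.toFinite A).coe_toFinset⟩
  obtain ⟨B', hB'⟩ : ∃ B' : Finset (Fin 3 → ZMod p), (B' : Set _) = B :=
    ⟨(Set.toFinite B).toFinset, (Set.toFinite B).coe_toFinset⟩
  subst hA'
  subst hB'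
  simp only [Finset.mem_coe] at hA0 hB0 htile
  have hnpA : NonPlanar A' := nonPlanar_of_closure hA0 hA
  have hnpB : NonPlanar B' := nonPlanar_of_closure hB0 hB
  have hinj : ∀ a ∈ A', ∀ b ∈ B', ∀ a' ∈ A', ∀ b' ∈ B', a + b = a' + b' → a = a' ∧ b = b' := by
    intro a ha b hb a' ha' b' hb' h
    obtain ⟨x, _, hx⟩ := htile (a + b)
    have h1 := hx (a, b) ⟨ha, hb, rfl⟩
    have h2 := hx (a', b') ⟨ha', hb', h.symm⟩
    have h3 : (a, b) = (a', b') := h1.trans h2.symm
    exact ⟨congrArg Prod.fst h3, congrArg Prod.snd h3⟩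
  have hG : Fintype.card (Fin 3 → ZMod p) = p ^ 3 := by simp [ZMod.card]
  have hcard : A'.card * B'.card = p ^ 3 := by
    rw [← Finset.card_product, ← hG, ← Finset.card_univ]
    have himg : (A' ×ˢ B').image (fun q => q.1 + q.2) = Finset.univ := by
      rw [Finset.eq_univ_iff_forall]
      intro g
      obtain ⟨⟨a, b⟩, ⟨h1, h2, h3⟩, _⟩ := htile g
      rw [Finset.mem_image]
      exact ⟨(a, b), Finset.mem_product.mpr ⟨h1, h2⟩, h3⟩
    rw [← himg, Finset.card_image_of_injOn]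
    rintro ⟨a, b⟩ h ⟨a', b'⟩ h' heq
    simp only [Finset.coe_product, Set.mem_prod, Finset.mem_coe] at h h'
    obtain ⟨e1, e2⟩ := hinj a h.1 b h.2 a' h'.1 b' h'.2 heq
    rw [e1, e2]
  have hA1 := card_ne_one_of_nonPlanar hnpA
  have hB1 := card_ne_one_of_nonPlanar hnpB
  have hp0 : 0 < p := hp.pos
  obtain ⟨i, hi3, hi⟩ := (Nat.dvd_prime_pow hp).mp (⟨B'.card, hcard.symm⟩ : A'.card ∣ p ^ 3)
  have hcase : i = 0 ∨ i = 1 ∨ i = 2 ∨ i = 3 := by omega
  rcases hcase with h | h | h | h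
  · rw [h, pow_zero] at hi
    exact absurd hi hA1
  · rw [h, pow_one] at hi
    have hBc : B'.card = p * p := by
      rw [hi] at hcard
      apply Nat.eq_of_mul_eq_mul_left hp0
      rw [hcard]; ring
    exact ⟨A', Or.inl rfl, hi, factor_conic A' B' hi hBc (sep A' B' hcard hinj) hnpA hnpB⟩
  · rw [h] at hi
    have hBc : B'.card = p := by
      rw [hi] at hcard
      apply Nat.eq_of_mul_eq_mul_left (pow_pos hp0 2)
      rw [hcard]; ring
    have hAc : A'.card = p * p := by rw [hi]; ring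
    have hS : H758R3.Dir.Sep B' A' := by
      apply sep B' A' (by rw [mul_comm]; exact hcard)
      intro b hb a ha b' hb' a' ha' heq
      obtain ⟨e1, e2⟩ := hinj a ha b hb a' ha' b' hb' (by rw [add_comm a b, add_comm a' b']; exact heq)
      exact ⟨e2, e1⟩
    exact ⟨B', Or.inr rfl, hBc, factor_conic B' A' hBc hAc hS hnpB hnpA⟩
  · rw [h] at hi
    exfalso
    apply hB1
    rw [hi] at hcard
    apply Nat.eq_of_mul_eq_mul_left (pow_pos hp0 3)
    rw [hcard]; ring

end Pool.Agent.Results.MP_e263ba_co.CounterexampleConic
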